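import Pool.Agent.helper76.BQ.MSpec

/-!
# BQ, MT2: theta 1-forms are holomorphic and closed
-/

open scoped BigOperators ComplexConjugate Matrix Topology
open MeasureTheory Filter Metric

namespace BQ

/-- Cauchy's estimate for the Frechet derivative. -/
theorem MT2_bound {G : (Fin 2 → ℂ) → ℂ} {U : Set (Fin 2 → ℂ)} (hU : IsOpen U)
    (hG : DifferentiableOn ℂ G U) {w : Fin 2 → ℂ} {r C : ℝ} (hr : 0 < r)
    (hwU : closedBall w r ⊆ U) (hC : ∀ y ∈ closedBall w r, ‖G y‖ ≤ C) :
    ‖fderiv ℂ G w‖ ≤ C / r := by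
  have hC0 : 0 ≤ C := le_trans (norm_nonneg _) (hC w (mem_closedBall_self hr.le))
  refine ContinuousLinearMap.opNorm_le_bound _ (by positivity) fun v => ?_
  rcases eq_or_ne v 0 with rfl | hv
  · simp
  have hv0 : 0 < ‖v‖ := norm_pos_iff.2 hv
  set R : ℝ := r / ‖v‖ with hR
  have hR0 : 0 < R := by positivity
  have hmem : ∀ ζ ∈ closedBall (0 : ℂ) R, w + ζ • v ∈ closedBall w r := by
    intro ζ hζ
    rw [mem_closedBall, dist_zero_right] at hζ
    rw [mem_closedBall, dist_eq_norm, add_sub_cancel_left, norm_smul]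
    calc ‖ζ‖ * ‖v‖ ≤ R * ‖v‖ := by gcongr
      _ = r := by rw [hR]; field_simp
  have hd : ∀ ζ ∈ closedBall (0 : ℂ) R,
      HasDerivAt (fun ζ : ℂ => G (w + ζ • v)) (fderiv ℂ G (w + ζ • v) v) ζ := by
    intro ζ hζ
    have h1 : HasFDerivAt G (fderiv ℂ G (w + ζ • v)) (w + ζ • v) :=
      (hG.differentiableAt (hU.mem_nhds (hwU (hmem ζ hζ)))).hasFDerivAt
    have h2 : HasDerivAt (fun ζ : ℂ => w + ζ • v) v ζ := by
      simpa using ((hasDerivAt_id ζ).smul_const v).const_add w
    exact h1.comp_hasDerivAt ζ h2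
  have hdc : DiffContOnCl ℂ (fun ζ : ℂ => G (w + ζ • v)) (ball 0 R) := by
    refine ⟨fun ζ hζ => (hd ζ (ball_subset_closedBall hζ)).differentiableAt.differentiableWithinAt,
      fun ζ hζ => ?_⟩
    exact (hd ζ (closure_ball_subset_closedBall hζ)).continuousAt.continuousWithinAt
  have h := Complex.norm_deriv_le_of_forall_mem_sphere_norm_le hR0 hdc
    (fun ζ hζ => hC _ (hmem ζ (sphere_subset_closedBall hζ)))
  have e := (hd 0 (mem_closedBall_self hR0.le)).deriv
  rw [e, zero_smul, add_zero] at h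
  calc ‖fderiv ℂ G w v‖ ≤ C / R := h
    _ = C / r * ‖v‖ := by rw [hR]; field_simp

/-- the directional derivative of a holomorphic function is holomorphic -/
theorem MT2_dir {G : (Fin 2 → ℂ) → ℂ} {U : Set (Fin 2 → ℂ)} (hU : IsOpen U)
    (hG : DifferentiableOn ℂ G U) (e : Fin 2 → ℂ) (he : ‖e‖ = 1) :
    DifferentiableOn ℂ (fun z => fderiv ℂ G z e) U := by
  intro z0 hz0
  refine DifferentiableAt.differentiableWithinAt ?_
  obtain ⟨R', hR'0, hR'⟩ := Metric.isOpen_iff.1 hU z0 hz0
  obtain ⟨R, hR0, hR⟩ : ∃ R : ℝ, 0 < R ∧ closedBall z0 (3 * R) ⊆ U := by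
    refine ⟨R' / 6, by positivity, fun y hy => hR' ?_⟩
    rw [mem_closedBall] at hy
    rw [mem_ball]
    linarith
  obtain ⟨C, hC⟩ : ∃ C : ℝ, ∀ y ∈ closedBall z0 (3 * R), ‖G y‖ ≤ C :=
    (isCompact_closedBall z0 (3 * R)).exists_bound_of_continuousOn (hG.continuousOn.mono hR)
  have hpt : ∀ z ∈ ball z0 R, ∀ ζ ∈ closedBall (0 : ℂ) R, z + ζ • e ∈ closedBall z0 (2 * R) := by
    intro z hz ζ hζ
    rw [mem_ball, dist_eq_norm] at hz
    rw [mem_closedBall, dist_zero_right] at hζ
    rw [mem_closedBall, dist_eq_norm]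
    calc ‖z + ζ • e - z0‖ = ‖(z - z0) + ζ • e‖ := by congr 1; abel
      _ ≤ ‖z - z0‖ + ‖ζ • e‖ := norm_add_le _ _
      _ ≤ R + R := by
          rw [norm_smul, he, mul_one]
          exact add_le_add hz.le hζ
      _ = 2 * R := by ring
  have h2U : closedBall z0 (2 * R) ⊆ U := (closedBall_subset_closedBall (by linarith)).trans hR
  have hbd : ∀ w ∈ closedBall z0 (2 * R), ‖fderiv ℂ G w‖ ≤ C / R := by
    intro w hw
    have hsub : closedBall w R ⊆ closedBall z0 (3 * R) := by
      refine closedBall_subset_closedBall' ?_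
      rw [mem_closedBall] at hw
      linarith
    exact MT2_bound hU hG hR0 (hsub.trans hR) fun y hy => hC y (hsub hy)
  have hfd : ∀ w ∈ closedBall z0 (2 * R), HasFDerivAt G (fderiv ℂ G w) w := fun w hw =>
    (hG.differentiableAt (hU.mem_nhds (h2U hw))).hasFDerivAt
  -- the integral formula
  have hform : ∀ z ∈ ball z0 R, fderiv ℂ G z e =
      (2 * (Real.pi : ℂ) * Complex.I)⁻¹ •
        ∮ ζ in C(0, R), ((ζ - 0) ^ 2)⁻¹ • G (z + ζ • e) := by
    intro z hz
    have hV : IsOpen ((fun ζ : ℂ => z + ζ • e) ⁻¹' U) := hU.preimage (by fun_prop)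
    have hsub : closedBall (0 : ℂ) R ⊆ (fun ζ : ℂ => z + ζ • e) ⁻¹' U := fun ζ hζ =>
      h2U (hpt z hz ζ hζ)
    have hd : ∀ ζ ∈ (fun ζ : ℂ => z + ζ • e) ⁻¹' U,
        HasDerivAt (fun ζ : ℂ => G (z + ζ • e)) (fderiv ℂ G (z + ζ • e) e) ζ := by
      intro ζ hζ
      have h1 : HasFDerivAt G (fderiv ℂ G (z + ζ • e)) (z + ζ • e) :=
        (hG.differentiableAt (hU.mem_nhds hζ)).hasFDerivAt
      have h2 : HasDerivAt (fun ζ : ℂ => z + ζ • e) e ζ := by
        simpa using ((hasDerivAt_id ζ).smul_const e).const_add z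
      exact h1.comp_hasDerivAt ζ h2
    rw [Complex.two_pi_I_inv_smul_circleIntegral_sub_sq_inv_smul_of_differentiable hV hsub
      (fun ζ hζ => (hd ζ hζ).differentiableAt.differentiableWithinAt) (mem_ball_self hR0)]
    have := (hd 0 (hsub (mem_closedBall_self hR0.le))).deriv
    rw [this, zero_smul, add_zero]
  -- differentiability of the integral
  have hcm : ∀ θ : ℝ, circleMap 0 R θ ∈ closedBall (0 : ℂ) R := fun θ =>
    circleMap_mem_closedBall 0 hR0.le θ
  have hne : ∀ θ : ℝ, circleMap 0 R θ ≠ 0 := fun θ => by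
    simpa using circleMap_ne_center (c := 0) (θ := θ) hR0.ne'
  have hint : HasFDerivAt (fun z => ∫ θ in (0 : ℝ)..(2 * Real.pi),
      deriv (circleMap 0 R) θ • (((circleMap 0 R θ - 0) ^ 2)⁻¹ • G (z + circleMap 0 R θ • e)))
      (∫ θ in (0 : ℝ)..(2 * Real.pi),
        deriv (circleMap 0 R) θ • (((circleMap 0 R θ - 0) ^ 2)⁻¹ •
          fderiv ℂ G (z0 + circleMap 0 R θ • e))) z0 := by
    have hcont : ∀ z ∈ ball z0 R, Continuous fun θ : ℝ =>
        deriv (circleMap 0 R) θ • (((circleMap 0 R θ - 0) ^ 2)⁻¹ • G (z + circleMap 0 R θ • e)) := by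
      intro z hz
      have h1 : Continuous fun θ : ℝ => G (z + circleMap 0 R θ • e) := by
        rw [continuous_iff_continuousAt]
        intro θ
        have h2 : ContinuousAt G (z + circleMap 0 R θ • e) :=
          (hfd _ (hpt z hz _ (hcm θ))).continuousAt
        have h3 : ContinuousAt (fun θ : ℝ => z + circleMap 0 R θ • e) θ := by fun_prop
        exact ContinuousAt.comp (f := fun θ : ℝ => z + circleMap 0 R θ • e) h2 h3
      have h4 : Continuous fun θ : ℝ => ((circleMap 0 R θ - 0) ^ 2)⁻¹ := by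
        refine Continuous.inv₀ (by fun_prop) fun θ => ?_
        rw [sub_zero]
        exact pow_ne_zero _ (hne θ)
      have h5 : Continuous fun θ : ℝ => deriv (circleMap 0 R) θ := by
        simp only [deriv_circleMap]
        fun_prop
      exact h5.smul (h4.smul h1)
    refine intervalIntegral.hasFDerivAt_integral_of_dominated_of_fderiv_le
      (F' := fun z θ => deriv (circleMap 0 R) θ • (((circleMap 0 R θ - 0) ^ 2)⁻¹ •
          fderiv ℂ G (z + circleMap 0 R θ • e)))
      (s := ball z0 R) (bound := fun _ => R * ((R ^ 2)⁻¹ * (C / R)))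
      (ball_mem_nhds z0 hR0) ?_ ?_ ?_ ?_ ?_ ?_
    · filter_upwards [ball_mem_nhds z0 hR0] with z hz
      exact (hcont z hz).aestronglyMeasurable
    · exact (hcont z0 (mem_ball_self hR0)).intervalIntegrable _ _
    · have h1 : Measurable fun θ : ℝ => fderiv ℂ G (z0 + circleMap 0 R θ • e) :=
        (measurable_fderiv ℂ G).comp (by fun_prop)
      have h4 : Continuous fun θ : ℝ => ((circleMap 0 R θ - 0) ^ 2)⁻¹ := by
        refine Continuous.inv₀ (by fun_prop) fun θ => ?_
        rw [sub_zero]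
        exact pow_ne_zero _ (hne θ)
      have h5 : Continuous fun θ : ℝ => deriv (circleMap 0 R) θ := by
        simp only [deriv_circleMap]
        fun_prop
      exact (h5.measurable.smul (h4.measurable.smul h1)).aestronglyMeasurable
    · refine Eventually.of_forall fun θ _ z hz => ?_
      rw [norm_smul, norm_smul, norm_inv, norm_pow, sub_zero, norm_circleMap_zero,
        abs_of_pos hR0]
      have h1 : ‖deriv (circleMap 0 R) θ‖ = R := by
        rw [deriv_circleMap, norm_mul, norm_circleMap_zero, abs_of_pos hR0, Complex.norm_I, mul_one]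
      rw [h1]
      gcongr
      exact hbd _ (hpt z hz _ (hcm θ))
    · exact intervalIntegrable_const
    · refine Eventually.of_forall fun θ _ z hz => ?_
      have h1 : HasFDerivAt (fun z => G (z + circleMap 0 R θ • e))
          (fderiv ℂ G (z + circleMap 0 R θ • e)) z := by
        have := HasFDerivAt.comp (f := fun z => z + circleMap 0 R θ • e) z
          (hfd _ (hpt z hz _ (hcm θ))) ((hasFDerivAt_id z).add_const (circleMap 0 R θ • e))
        rw [ContinuousLinearMap.comp_id] at this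
        exact this
      exact HasFDerivAt.fun_const_smul (HasFDerivAt.fun_const_smul h1 _) _
  have hfin : DifferentiableAt ℂ (fun z => (2 * (Real.pi : ℂ) * Complex.I)⁻¹ •
        ∮ ζ in C(0, R), ((ζ - 0) ^ 2)⁻¹ • G (z + ζ • e)) z0 :=
    (HasFDerivAt.fun_const_smul hint _).differentiableAt
  refine hfin.congr_of_eventuallyEq ?_
  filter_upwards [ball_mem_nhds z0 hR0] with z hz
  exact hform z hz

theorem MT2_ball_open (t : ℝ) : IsOpen (Ball t) := by
  have : Ball t = (fun z : Fin 2 → ℂ => ‖z 0‖ ^ 2 + ‖z 1‖ ^ 2) ⁻¹' Set.Iio t := rfl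
  rw [this]
  exact isOpen_Iio.preimage (by fun_prop)

/-- the differential of a holomorphic function is holomorphic and closed -/
theorem MT2_closed {G : (Fin 2 → ℂ) → ℂ} {t : ℝ} {f : (Fin 2 → ℂ) → Fin 2 → ℂ}
    (hG : ∀ z ∈ Ball t, HasFDerivAt G (∑ α : Fin 2, f z α •
        (ContinuousLinearMap.proj (R := ℂ) (φ := fun _ : Fin 2 => ℂ) α)) z) :
    HolClosed t f := by
  have hU := MT2_ball_open t
  have hGd : DifferentiableOn ℂ G (Ball t) := fun z hz =>
    (hG z hz).differentiableAt.differentiableWithinAt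
  have hval : ∀ z ∈ Ball t, ∀ i : Fin 2, fderiv ℂ G z (Pi.single i 1) = f z i := by
    intro z hz i
    rw [(hG z hz).fderiv]
    fin_cases i <;> simp [Fin.sum_univ_two]
  have hfi : ∀ i : Fin 2, DifferentiableOn ℂ (fun z => f z i) (Ball t) := by
    intro i
    refine (MT2_dir hU hGd (Pi.single i 1) (by simp [Pi.norm_single])).congr fun z hz => ?_
    exact (hval z hz i).symm
  have hf : DifferentiableOn ℂ f (Ball t) := differentiableOn_pi.2 hfi
  refine ⟨hf, fun z hz => ?_⟩
  have hfz : HasFDerivAt f (fderiv ℂ f z) z := (hf.differentiableAt (hU.mem_nhds hz)).hasFDerivAt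
  -- the derivative of `z ↦ fderiv G z`
  set L : (Fin 2 → ℂ) →L[ℂ] ((Fin 2 → ℂ) →L[ℂ] ℂ) := ∑ α : Fin 2,
    (ContinuousLinearMap.smulRight (ContinuousLinearMap.proj (R := ℂ) (φ := fun _ : Fin 2 => ℂ) α)
      (ContinuousLinearMap.proj (R := ℂ) (φ := fun _ : Fin 2 => ℂ) α)) with hL
  have hLf : ∀ u : Fin 2 → ℂ, L u = ∑ α : Fin 2, u α •
      (ContinuousLinearMap.proj (R := ℂ) (φ := fun _ : Fin 2 => ℂ) α) := by
    intro u
    rw [hL, sum_apply]
    rfl
  have h2 : HasFDerivAt (fun z => L (f z)) (L.comp (fderiv ℂ f z)) z := L.hasFDerivAt.comp z hfz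
  have h1 : ∀ᶠ y in 𝓝 z, HasFDerivAt G (L (f y)) y := by
    filter_upwards [hU.mem_nhds hz] with y hy
    rw [hLf]
    exact hG y hy
  have h3 := second_derivative_symmetric_of_eventually h1 h2 (Pi.single 0 1) (Pi.single 1 1)
  simpa [hLf, Fin.sum_univ_two] using h3

theorem MT2 (hB : B8b_stmt) (hMBa : MBa_stmt) (hMBc : MBc_stmt) (hMBs : MBs_stmt) : MT2_stmt := by
  intro F _ _ kap d v0 hyp del hdel phi hphi
  obtain ⟨hmob, hball, hev, hdata⟩ := hMBa
  have hk : 0 < v0 (kap * del) := by rw [map_mul]; exact mul_pos (hyp.kapPos v0) hdel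
  have hk0 : kap * del ≠ 0 := fun h => by rw [h, map_zero] at hk; exact lt_irrefl _ hk
  have hmaj : Pool.Agent.helper76.BQ.MajAll (fun _ : Fin 1 => kap * del) v0 (fun _ => 1)
      (fun v => Matrix.diagonal fun _ => |v (kap * del)|) :=
    ⟨fun _ => hk0, fun _ => hk, fun v => ⟨by simp, by simp⟩⟩
  have hsch : Pool.Agent.helper76.BQ.IsSchw (fun x : Fin 1 → Fin 3 → F => phi (x 0)) :=
    (hMBs F _).2 hphi
  obtain ⟨G, hG⟩ := hB F kap d v0 (hdata F kap d v0 hyp) (fun _ => kap * del) _ _ hmaj _ hsch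
  refine MT2_closed (G := G) fun z hz => ?_
  have h := hG z (by rw [hball]; exact hz)
  simp only [← hMBc F kap d del v0 hyp phi z hz] at h
  exact h

end BQ
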